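import Pool.Agent.U29.EU.Stm
import Pool.Agent.U97.DS.ODED

/-!
Project EU, package ODEE (helper913): global solutions of the truncated systems with dispersion, for `0 ≤ ν`.
Adapted from `Pool/Agent/U97/DS/ODED.lean` and `Pool/Agent/U178/RT/ODE.lean` (only the sign of `-2 ν Er` is used).
-/

set_option autoImplicit false

namespace Pool.Agent.U913.EU

open Set Filter Topology Metric
open scoped NNReal RealInnerProductSpace
open Pool.Agent.N983.RT Pool.Agent.U178.RT Pool.Agent.U136.DS Pool.Agent.U97.DS Pool.Agent.U29.EU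

variable {n : ℕ}

theorem inner_fld0 (hA : S_ALG) {g : Wv → Wv → Wv → ℝ} (hg : Arr g) {ν : ℝ} (hν : 0 ≤ ν) (α : ℝ)
    {S : Set Wv} {x : Vn n} (hx : x ∈ AdmS n S) : ⟪fld g ν α x, x⟫ ≤ 0 := by
  obtain ⟨hadm, -⟩ := hx
  have h1 := (hA g n (ext x) hg hadm fun k hk => ext_out x hk).2
  rw [inner_eq]
  have h2 : ∑ k ∈ cub n, ∑ j, (starRingEnd ℂ) (ext x k j) * ext (fld g ν α x) k j =
      -((∑ k ∈ cub n, ∑ j, ν * nsq k ^ α * ‖ext x k j‖ ^ 2 : ℝ) : ℂ) +
      ∑ m ∈ cub n, ∑ j, (nsq m ^ 0 : ℂ) * ((starRingEnd ℂ) (ext x m j) *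
        (-Complex.I * prj m (conv (cutg n g) (ext x) m) j)) := by
    push_cast
    rw [← Finset.sum_neg_distrib, ← Finset.sum_add_distrib]
    refine Finset.sum_congr rfl fun k hk => ?_
    rw [← Finset.sum_neg_distrib, ← Finset.sum_add_distrib]
    refine Finset.sum_congr rfl fun j _ => ?_
    rw [ext_fld _ _ _ _ hk]
    by_cases h0 : k = 0
    · subst h0
      rw [if_pos rfl, hadm.zero]
      simp
    · rw [if_neg h0]
      unfold rhs
      have h3 : ((‖ext x k j‖ : ℝ) : ℂ) ^ 2 = (starRingEnd ℂ) (ext x k j) * ext x k j := by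
        rw [mul_comm, Complex.mul_conj, Complex.normSq_eq_norm_sq]
        push_cast
        ring
      rw [h3, pow_zero]
      push_cast
      ring
  rw [h2, Complex.add_re, Complex.neg_re, Complex.ofReal_re]
  have h3 : (∑ m ∈ cub n, ∑ j, (nsq m ^ 0 : ℂ) * ((starRingEnd ℂ) (ext x m j) *
        (-Complex.I * prj m (conv (cutg n g) (ext x) m) j))).re = 0 := h1
  rw [h3, add_zero, neg_nonpos]
  refine Finset.sum_nonneg fun k _ => Finset.sum_nonneg fun j _ => ?_
  have := Real.rpow_nonneg (nsq_nonneg k) α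
  positivity

theorem inner_vf0 (hA : S_ALG) {ν : ℝ} (hν : 0 ≤ ν) (lam : Wv → ℝ) {x : Vn n}
    (hx : x ∈ AdmS n univ) : ⟪vf ν lam x, x⟫ ≤ 0 := by
  unfold vf
  rw [inner_add_left, inner_dsp, add_zero]
  exact inner_fld0 hA arr_one hν 1 hx

/-- **The truncated systems have global solutions.** -/
theorem t_ODEE : S_ODEE := by
  intro hA ν lam n hν hlam u₀ hu₀
  have hl := hlam.1
  let x₀ : Vn n := WithLp.toLp 2 fun p => u₀ p.1.1 p.2
  have hx₀ : ext x₀ = Pool.Agent.N983.RT.cut n u₀ := by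
    funext k i
    by_cases hk : k ∈ cub n
    · rw [ext_mem _ hk]
      simp [Pool.Agent.N983.RT.cut, hk, x₀]
    · rw [ext_out _ hk]
      simp [Pool.Agent.N983.RT.cut, hk]
  have hmem : x₀ ∈ AdmS n univ := by
    change Adm (ext x₀) ∧ ∀ k, k ∉ univ → ext x₀ k = 0
    rw [hx₀]
    refine ⟨⟨?_, ?_, ?_⟩, fun k hk => (hk (mem_univ k)).elim⟩
    · unfold Pool.Agent.N983.RT.cut
      rw [if_pos zero_mem_cub, hu₀.zero]
    · intro k
      unfold Pool.Agent.N983.RT.cut
      split_ifs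
      · exact hu₀.div k
      · simp [dt]
    · intro k i
      unfold Pool.Agent.N983.RT.cut
      by_cases hk : k ∈ cub n
      · rw [if_pos hk, if_pos (mem_cub_neg.2 hk), hu₀.real]
      · rw [if_neg hk, if_neg (fun h => hk (mem_cub_neg.1 h))]
        simp
  let F : AdmS n univ → AdmS n univ := fun x => ⟨vf ν lam x, vf_mem hl x.2⟩
  have hF : ∀ R : ℝ, 0 < R → ∃ K : ℝ≥0, LipschitzOnWith K F (closedBall 0 R) := by
    intro R _
    obtain ⟨K, hK⟩ := lip_vf (n := n) ν lam R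
    refine ⟨K, LipschitzOnWith.of_dist_le_mul fun x hx y hy => ?_⟩
    have h1 : ∀ z : AdmS n univ, z ∈ closedBall (0 : AdmS n univ) R →
        (z : Vn n) ∈ closedBall (0 : Vn n) R := by
      intro z hz
      rw [mem_closedBall, dist_zero_right] at hz ⊢
      exact hz
    exact hK.dist_le_mul x (h1 x hx) y (h1 y hy)
  have hd : ∀ x, ⟪F x, x⟫ ≤ 0 := fun x => inner_vf0 hA hν lam x.2
  obtain ⟨a, ha0, ha, hab⟩ := global hF hd ⟨x₀, hmem⟩
  have hbd : ∀ t, 0 ≤ t → ∀ k i, ‖ext (a t : Vn n) k i‖ ≤ ‖x₀‖ := by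
    intro t ht k i
    by_cases hk : k ∈ cub n
    · rw [ext_mem _ hk]
      exact (PiLp.norm_apply_le (a t : Vn n) _).trans (hab t ht)
    · rw [ext_out _ hk]
      simp
  refine ⟨fun t => ext (a t : Vn n), ⟨fun t _ => (a t).2.1, ?_, ?_⟩, ?_, ?_⟩
  · intro T s
    refine ⟨(∑ k ∈ cub n, (1 + nsq k) ^ s) * ‖x₀‖, fun t ht _ k i => ?_⟩
    have hpos : ∀ k, 0 ≤ (1 + nsq k) ^ s := fun k => by
      have := nsq_nonneg k
      positivity
    by_cases hk : k ∈ cub n
    · refine mul_le_mul ?_ (hbd t ht k i) (norm_nonneg _)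
        (Finset.sum_nonneg fun k _ => hpos k)
      exact Finset.single_le_sum (fun k _ => hpos k) hk
    · rw [ext_out _ hk]
      simp only [Pi.zero_apply, norm_zero, mul_zero]
      exact mul_nonneg (Finset.sum_nonneg fun k _ => hpos k) (norm_nonneg _)
  · intro t ht m hm j
    by_cases hmc : m ∈ cub n
    · have h1 : HasDerivWithinAt (fun t => (a t : Vn n)) (vf ν lam (a t)) (Ici 0) t :=
        (AdmS n univ).subtypeL.hasFDerivAt.comp_hasDerivWithinAt t (ha t ht)
      have h2 := (PiLp.proj 2 (𝕜 := ℝ) (fun _ : Ix n => ℂ)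
        (⟨m, hmc⟩, j)).hasFDerivAt.comp_hasDerivWithinAt t h1
      have h3 : ((PiLp.proj 2 (𝕜 := ℝ) (fun _ : Ix n => ℂ) (⟨m, hmc⟩, j)) (vf ν lam (a t))) =
          rhsD (cutg n one) ν lam (ext (a t : Vn n)) m j := by
        change (if m = 0 then (0 : ℂ) else rhs (cutg n one) ν 1 (ext (a t : Vn n)) m j) +
          -(Complex.I * (lam m : ℂ) * ext (a t : Vn n) m j) = _
        rw [if_neg hm]
        unfold rhsD
        ring
      rw [h3] at h2
      refine h2.congr (fun s _ => ?_) ?_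
      · rw [ext_mem _ hmc]
        rfl
      · rw [ext_mem _ hmc]
        rfl
    · have h4 : rhsD (cutg n one) ν lam (ext (a t : Vn n)) m j = 0 := by
        unfold rhsD
        rw [rhs_out _ _ _ hmc (ext_out _ hmc), ext_out _ hmc]
        simp
      rw [h4]
      simp only [ext_out _ hmc]
      exact hasDerivWithinAt_const _ _ _
  · change ext (a 0 : Vn n) = _
    rw [ha0]
    exact hx₀
  · intro t _ k hk
    exact ext_out _ hk

end Pool.Agent.U913.EU
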